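import Pool.Agent.Q54.TK.Gen

/-!
# MP_d365ae_co: 2-resilient 3-graphs with large covering number, and a general bound

Part 1: there are `ζ > 0` and `s0` such that for `s ≥ s0` every 2-resilient 3-graph with matching number `s`
and covering number at least `(3 - ζ) s` has at most `C(3 s + 2, 3)` edges. Part 2: for every `ε > 0` and
large `s` every 2-resilient 3-graph with matching number `s` has at most `(9 + ε) s^3` edges.
-/

set_option autoImplicit false

namespace Pool.Agent.Results.MP_d365ae_co.LargeCoveringNumber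

/-- the matching number of `F` is `s` -/
def MatchingNumberIs {n : ℕ} (F : Finset (Finset (Fin n))) (s : ℕ) : Prop :=
  IsGreatest {m : ℕ | ∃ M : Finset (Finset (Fin n)),
    M ⊆ F ∧ (∀ e ∈ M, ∀ f ∈ M, e ≠ f → Disjoint e f) ∧ M.card = m} s

/-- `F` is a 3-graph on `Fin n` with matching number `s` which is 2-resilient: for every vertex set `T`
with at most two elements the edges avoiding `T` still have matching number `s` -/
def ResilientThreeGraph {n : ℕ} (s : ℕ) (F : Finset (Finset (Fin n))) : Prop :=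
  (∀ e ∈ F, e.card = 3) ∧ MatchingNumberIs F s ∧
    ∀ T : Finset (Fin n), T.card ≤ 2 → MatchingNumberIs (F.filter (fun e => Disjoint e T)) s

/-- every vertex set which meets all edges has at least `x` elements -/
def CoveringNumberGe {n : ℕ} (F : Finset (Finset (Fin n))) (x : ℝ) : Prop :=
  ∀ Y : Finset (Fin n), (∀ e ∈ F, (e ∩ Y).Nonempty) → x ≤ Y.card

open Pool.Agent.Q54.TK

theorem result :
    (∃ ζ : ℝ, 0 < ζ ∧ ∃ s0 : ℕ, ∀ s : ℕ, s0 ≤ s →
      ∀ (n : ℕ) (F : Finset (Finset (Fin n))), ResilientThreeGraph s F →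
        CoveringNumberGe F ((3 - ζ) * s) → F.card ≤ (3 * s + 2).choose 3) ∧
    (∀ ε : ℝ, 0 < ε → ∃ s0 : ℕ, ∀ s : ℕ, s0 ≤ s →
      ∀ (n : ℕ) (F : Finset (Finset (Fin n))), ResilientThreeGraph s F →
        (F.card : ℝ) ≤ (9 + ε) * (s : ℝ) ^ 3) := by
  refine ⟨?_, fun ε hε => ?_⟩
  · obtain ⟨ζ, hζ, s0, H⟩ := t_FIN 3 (by omega)
    refine ⟨ζ, hζ, s0 + 1, fun s hs n F hF hcov => ?_⟩
    have hyp : Hyp 3 s F := hyp_of 3 s (by omega) (by omega) F hF.1 (fun T hT => hF.2.2 T hT)
    refine H s (by omega) (Fin n) F hyp (t_COV (Fin n) F 3 s ζ (by omega) hF.1 ?_)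
    intro Y hY
    push_cast
    refine hcov Y fun e he => ?_
    rw [Finset.nonempty_iff_ne_empty]
    intro h0
    exact hY e he (Finset.disjoint_iff_inter_eq_empty.mpr h0)
  · obtain ⟨s0, H⟩ := gen 3 (by omega) (ε / 9) (by positivity)
    refine ⟨s0 + 1, fun s hs n F hF => ?_⟩
    have hyp : Hyp 3 s F := hyp_of 3 s (by omega) (by omega) F hF.1 (fun T hT => hF.2.2 T hT)
    have h1 := H s (by omega) (Fin n) F hyp
    have h2 : (s : ℝ) * qq 3 s = 9 * (s : ℝ) ^ 3 := by
      unfold qq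
      push_cast
      ring
    rw [h2] at h1
    calc (F.card : ℝ) ≤ (1 + ε / 9) * (9 * (s : ℝ) ^ 3) := h1
      _ = (9 + ε) * (s : ℝ) ^ 3 := by ring

end Pool.Agent.Results.MP_d365ae_co.LargeCoveringNumber
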